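import Pool.Agent.Q43.GC.Fam

/-!
# Points with an isogeny factor with trivial Rosati involution and arbitrary cofactor

Let `x` be a point of `𝒜_g` over a number field such that `A_x` is isogenous to `B ^ r × C`, where all
endomorphisms of `B` are fixed by the Rosati involution (`End B = ℤ`, or more generally `B` is a
product of simple abelian varieties of type I in the classification of Albert which are not isogenous
to each other) and `C` is ANY abelian variety, which may be zero. In the family `Y` of the varieties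
`B_y ^ r × C`, where `B_y` has the endomorphisms of `B`, the fibre `W = V_ℓ(C)` is constant. We prove that
`x` and `Y` have the same algebraic monodromy group, so that `x` is not `ℓ`-Galois special, if there is
one place of good reduction, with the Frobenius element `γ`, such that

* (general place) the eigenvalues of `γ` on `V_ℓ(B)` are different from each other and have only
  trivial relations of length four, and no equation `z x' = ζ z' x` holds, with different eigenvalues
  `x`, `z` of `γ` on `V_ℓ(B)`, eigenvalues `x'`, `z'` on `V_ℓ(C)` and a root of unity `ζ`, or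
* (elliptic place) `B` is an elliptic curve without complex multiplication which is ordinary at the
  place, and the reduction of `C` has no isogeny factor over the algebraic closure of the residue field
  isogenous to the reduction of `B`.

By a theorem of Serre almost all places are ordinary for `B`, and by a theorem of Khare and Larsen
(abelian varieties with isogenous reductions) the second condition of an elliptic place is satisfied for
a set of places of positive density if `B` is not an isogeny factor of `C`. So a point `x` such that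
`A_x` has an elliptic curve without complex multiplication as an isogeny factor is never
`ℓ`-Galois special.

The proof of the first part: the elements of the algebraic envelope of `γ` act on the Lie algebra of the
endomorphisms of `V_ℓ(B) × V_ℓ(C)` which kill all Tate forms, and the two conditions on the eigenvalues
separate its diagonal blocks, so that the Lie algebra contains all endomorphisms which are zero on
`V_ℓ(C)`, skew for the Weil pairing and commute with the endomorphisms of `B`. At an elliptic place the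
eigenvalues `α`, `β` of `B` are coprime algebraic integers, and so `β x' = ζ z' α` implies that `α` divides
a power of `x'` and by Kronecker's theorem `x'` is `α` up to a root of unity.
-/

set_option autoImplicit false

namespace Pool.Agent.Results.MP_09799c_ag.ArbitraryCofactor

open Module Pool.Agent.Q50.GS Pool.Agent.Q43.GC Pool.Agent.W516.FT Pool.Agent.TH776.FM
  Pool.Agent.TH776.FL

section defs

variable {ℓ : ℕ} [Fact ℓ.Prime] {H V W : Type} [AddCommGroup H] [Module ℚ_[ℓ] H]
  [AddCommGroup V] [Module ℚ_[ℓ] V] [AddCommGroup W] [Module ℚ_[ℓ] W]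
  {G D : Type} [Group G] [Group D]

/-- The endomorphism `P` commutes with a subgroup of finite index. -/
def IsEndo (B : Representation ℚ_[ℓ] D V) (P : Module.End ℚ_[ℓ] V) : Prop :=
  ∃ Δ : Subgroup D, Δ.FiniteIndex ∧ ∀ s ∈ Δ, ∀ v, P (B s v) = B s (P v)

/-- The family over `Y` is isogenous to the product of the `r`-th power of a family `B` and a constant
abelian variety `C`: `G` is the arithmetic fundamental group of `Y`, `N` the geometric one, `i` is
the homomorphism of the absolute Galois group of the residue field of the point, the fibre at the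
point is `H ≅ V ^ r × W`, the pairing `ω` on `V` is multiplied by the character `χ`, which is trivial
on `N`, the endomorphisms of `V` defined at the point are defined over `Y`, and `N` acts trivially on
`W`. -/
structure IsProductFamily (ρ : Representation ℚ_[ℓ] G H) (χ : G →* ℚ_[ℓ]) (i : D →* G)
    (N : Subgroup G) (B : Representation ℚ_[ℓ] G V) (C : Representation ℚ_[ℓ] G W) (r : ℕ)
    (ω : V →ₗ[ℚ_[ℓ]] V →ₗ[ℚ_[ℓ]] ℚ_[ℓ]) : Prop where
  isogeny : ∃ u : H ≃ₗ[ℚ_[ℓ]] ((Fin r → V) × W), ∀ s h, u (ρ s h) = sumRep B C r s (u h)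
  normal : N.Normal
  finiteIndex : (i.range ⊔ N).FiniteIndex
  geometric : ∀ s ∈ N, χ s = 1
  weil : ∀ s u v, ω (B s u) (B s v) = χ s * ω u v
  endomorphisms : ∀ P, IsEndo (B.comp i) P → ∀ s ∈ N, ∀ v, P (B s v) = B s (P v)
  constant : ∀ s ∈ N, ∀ w, C s w = w

/-- The element `γ` acts on `V` and `W` as a Frobenius element with `q` elements in the residue
field, with different eigenvalues on `V` which have only trivial relations of length four, semisimply
on `W`, and no equation `z x' = ζ z' x` holds for different eigenvalues `x`, `z` on `V`, eigenvalues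
`x'`, `z'` on `W` and a root of unity `ζ`. The polynomial `P` is the characteristic polynomial on `V`,
and `Q` has rational coefficients and different roots, the eigenvalues on `W`. -/
def IsGeneralPlace [FiniteDimensional ℚ_[ℓ] V] (B : Representation ℚ_[ℓ] D V)
    (C : Representation ℚ_[ℓ] D W) (χ : D →* ℚ_[ℓ]) (γ : D) : Prop :=
  ∃ (q : ℕ) (P Q : Polynomial ℚ), χ γ = q ∧ P.Separable ∧
    (B γ).charpoly = P.map (algebraMap ℚ ℚ_[ℓ]) ∧ OnlyTrivialRelationsOfLengthFour P q ∧
    Q.Separable ∧ Polynomial.aeval (C γ) (Q.map (algebraMap ℚ ℚ_[ℓ])) = 0 ∧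
    ∀ M : ℕ, 0 < M → ∀ x ∈ P.rootSet ℂ, ∀ z ∈ P.rootSet ℂ, x ≠ z → ∀ x' ∈ Q.rootSet ℂ,
      ∀ z' ∈ Q.rootSet ℂ, (z * x') ^ M ≠ (z' * x) ^ M

/-- The element `γ` acts on `V` as the Frobenius element of an ordinary elliptic curve over a field with
`q` elements, and on `W` semisimply with eigenvalues which are Weil numbers and different, up to roots
of unity, from the ones on `V`. -/
def IsEllipticPlace [FiniteDimensional ℚ_[ℓ] V] (B : Representation ℚ_[ℓ] D V)
    (C : Representation ℚ_[ℓ] D W) (χ : D →* ℚ_[ℓ]) (γ : D) : Prop :=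
  ∃ (q : ℕ) (t : ℤ) (Q : Polynomial ℚ), χ γ = q ∧ 1 < q ∧ IsCoprime t (q : ℤ) ∧ t ^ 2 < 4 * q ∧
    (B γ).charpoly = Polynomial.X ^ 2 - Polynomial.C (t : ℚ_[ℓ]) * Polynomial.X +
      Polynomial.C (q : ℚ_[ℓ]) ∧
    Q.Separable ∧ Polynomial.aeval (C γ) (Q.map (algebraMap ℚ ℚ_[ℓ])) = 0 ∧
    (∀ z ∈ Q.rootSet ℂ, IsIntegral ℤ z ∧ ‖z‖ ^ 2 = q) ∧
    ∀ M : ℕ, 0 < M → ∀ a : ℂ, a ^ 2 - t * a + q = 0 → ∀ z ∈ Q.rootSet ℂ, a ^ M ≠ z ^ M

end defs

/-- Let `x` be a point and `y` a family through `x` which is isogenous to `B ^ r × C`, with constant `C`,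
where the Rosati involution of `B` is trivial. If there is a general place or an elliptic place, all
Tate forms at `x` are invariant under all maps which are the identity on `V_ℓ(C)` and an automorphism
of `V_ℓ(B)` which preserves the Weil pairing and commutes with the endomorphisms, and `x` is not
`ℓ`-Galois special. -/
theorem result {ℓ : ℕ} [Fact ℓ.Prime] {H V W : Type} [AddCommGroup H] [Module ℚ_[ℓ] H]
    [AddCommGroup V] [Module ℚ_[ℓ] V] [FiniteDimensional ℚ_[ℓ] V]
    [AddCommGroup W] [Module ℚ_[ℓ] W] [FiniteDimensional ℚ_[ℓ] W]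
    {ι : Type} {D G : ι → Type} [∀ y, Group (D y)] [∀ y, Group (G y)]
    (ρ : ∀ y, Representation ℚ_[ℓ] (G y) H) (χ : ∀ y, G y →* ℚ_[ℓ]) (i : ∀ y, D y →* G y)
    (y : ι) (N : Subgroup (G y)) (B : Representation ℚ_[ℓ] (G y) V)
    (C : Representation ℚ_[ℓ] (G y) W) (r : ℕ) (ω : V →ₗ[ℚ_[ℓ]] V →ₗ[ℚ_[ℓ]] ℚ_[ℓ])
    (ω' : W →ₗ[ℚ_[ℓ]] W →ₗ[ℚ_[ℓ]] ℚ_[ℓ])
    (hY : IsProductFamily (ρ y) (χ y) (i y) N B C r ω)
    (hB : IsTateModule (B.comp (i y)) ((χ y).comp (i y)) ω)
    (hC : IsTateModule (C.comp (i y)) ((χ y).comp (i y)) ω')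
    (hR : RosatiTrivial (B.comp (i y)) ω) (γ : D y)
    (hγ : IsGeneralPlace (B.comp (i y)) (C.comp (i y)) ((χ y).comp (i y)) γ ∨
      IsEllipticPlace (B.comp (i y)) (C.comp (i y)) ((χ y).comp (i y)) γ) :
    (∀ (m : ℕ) (φ : MultilinearMap ℚ_[ℓ] (fun _ : Fin m × Fin 2 => (Fin r → V) × W) ℚ_[ℓ]),
      IsTate (sumRep (B.comp (i y)) (C.comp (i y)) r) ((χ y).comp (i y)) m φ →
      ∀ T : Module.End ℚ_[ℓ] V, (∀ u v, ω (T u) (T v) = ω u v) →
        (∀ P, IsEndo (B.comp (i y)) P → ∀ v, P (T v) = T (P v)) →
        ∀ v, φ (fun l => diagMap r T LinearMap.id (v l)) = φ v) ∧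
    ¬ IsGaloisSpecial ρ χ i := by
  have key : ∀ (m : ℕ)
      (φ : MultilinearMap ℚ_[ℓ] (fun _ : Fin m × Fin 2 => (Fin r → V) × W) ℚ_[ℓ]),
      IsTate (sumRep (B.comp (i y)) (C.comp (i y)) r) ((χ y).comp (i y)) m φ →
      ∀ T : Module.End ℚ_[ℓ] V, (∀ u v, ω (T u) (T v) = ω u v) →
        (∀ P, IsEndo (B.comp (i y)) P → ∀ v, P (T v) = T (P v)) →
        ∀ v, φ (fun l => diagMap r T LinearMap.id (v l)) = φ v := by
    intro m φ hφ T hT hTP v
    rcases hγ with ⟨q, P, Q, h1, h2, h3, h4, h5, h6, h7⟩ |
      ⟨q, t, Q, h1, hq, hc, ht, h3, h5, h6, h7, h8⟩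
    · exact power_main (B.comp (i y)) (C.comp (i y)) ((χ y).comp (i y)) ω ω' hB hC hR γ h1 h2 h3 h5
        h6 h4 h7 φ hφ T hT hTP v
    · refine power_main (B.comp (i y)) (C.comp (i y)) ((χ y).comp (i y)) ω ω' hB hC hR γ h1
        (ell_separable ht) ?_ h5 h6 (ell_four hq hc ht)
        (ell_sep hq hc ht h5.ne_zero h7 h8) φ hφ T hT hTP v
      rw [h3, ellPoly]
      simp
  refine ⟨key, fun hx => hx y ?_⟩
  obtain ⟨u, hu⟩ := hY.isogeny
  have := hY.normal
  refine fam_main (ρ y) (χ y) (i y) N hY.finiteIndex B C r u hu hY.geometric fun m φ hφ s hs v => ?_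
  have h1 : (fun l => sumRep B C r s (v l)) =
      fun l => diagMap r (B s) LinearMap.id (v l) := by
    funext l
    rw [sumRep_apply, diagMap_apply]
    exact Prod.ext rfl (hY.constant s hs (v l).2)
  rw [h1]
  refine key m φ hφ (B s) (fun u v => ?_) (fun P hP v => hY.endomorphisms P hP s hs v) v
  rw [hY.weil, hY.geometric s hs, one_mul]

end Pool.Agent.Results.MP_09799c_ag.ArbitraryCofactor
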