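import Pool.Agent.Q50.GS.Main

/-!
# Tate tensors of degree four decide whether a point is ℓ-Galois special
-/

namespace Pool.Agent.Results.MP_09799c_ag.DegreeFourDecides

open Pool.Agent.Q50.GS

/-- A point `x` is `ℓ`-Galois special with respect to a family of varieties through `x` if and only
if, for each of these varieties, some Tate tensor of degree four at `x` is not a Tate tensor on the
variety. -/
theorem result {ℓ : ℕ} [Fact ℓ.Prime] {V : Type} [AddCommGroup V] [Module ℚ_[ℓ] V]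
    [FiniteDimensional ℚ_[ℓ] V] {ι : Type} {D G : ι → Type}
    [∀ y, Group (D y)] [∀ y, TopologicalSpace (D y)] [∀ y, IsTopologicalGroup (D y)]
    [∀ y, CompactSpace (D y)]
    [∀ y, Group (G y)] [∀ y, TopologicalSpace (G y)] [∀ y, IsTopologicalGroup (G y)]
    [∀ y, CompactSpace (G y)]
    (ρ : ∀ y, Representation ℚ_[ℓ] (G y) V) (χ : ∀ y, G y →* ℚ_[ℓ])
    (ω : ι → V →ₗ[ℚ_[ℓ]] V →ₗ[ℚ_[ℓ]] ℚ_[ℓ]) (N : ∀ y, Subgroup (G y)) (i : ∀ y, D y →* G y)
    (hY : ∀ y, IsSheaf (ρ y) (χ y) (ω y) (N y)) (hx : ∀ y, IsPoint (ρ y) (N y) (i y)) :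
    IsGaloisSpecial ρ χ i ↔ ∀ y, ∃ φ : MultilinearMap ℚ_[ℓ] (fun _ : Fin 2 × Fin 2 => V) ℚ_[ℓ],
      IsTate ((ρ y).comp (i y)) ((χ y).comp (i y)) 2 φ ∧ ¬ IsTate (ρ y) (χ y) 2 φ := by
  constructor
  · intro h y
    by_contra hcon
    push Not at hcon
    exact h y fun m φ hφ => tate_all (ρ y) (χ y) (ω y) (i y) (hY y) (hx y).continuous
      (hx y).finiteIndex (hx y).semisimple hcon m φ hφ
  · intro h y hcon
    obtain ⟨φ, h1, h2⟩ := h y
    exact h2 (hcon 2 φ h1)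

end Pool.Agent.Results.MP_09799c_ag.DegreeFourDecides
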