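import Mathlib
import Pool.Agent.Q43.HQ.Angle
import Pool.Agent.Y1.TS.Split
import Pool.Agent.Q29.GS.Final

/-!
# ℓ-Galois special points and abelian varieties with one Frobenius element whose Weil numbers are
separated by the Galois closures of their fields

Let `K i` be finitely many CM fields with Weil numbers `π i` for `q = p ^ a`, of any slopes. We assume
(`IsSeparated`)

* (`generated`) the powers of `π i` generate `K i`;
* (`typed`) the degree of `K i` is two, or it is four and `K i` contains no imaginary quadratic field,
  or it is twice an odd prime number, or it is larger than four and there is an odd function `s` on
  the set of complex embeddings of `K i`, on which the automorphisms of `ℂ` act by signs (possibly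
  `s = 0`), such that the odd functions orthogonal to `s` are an irreducible representation over `ℚ`
  of the group of automorphisms of `ℂ` (for instance if the Galois group of `K i` is large, or if
  `K i` is cyclic of 2-power degree);
* (`closure`) the Galois closures of `K i` and `K k`, `i ≠ k`, are different if both fields have degree
  at least four;
* (`quadratic`) no imaginary quadratic field is contained in two of the fields `K i`, and the norm of
  `π i` to an imaginary quadratic subfield of `K i` is not a power of the square root of `q`, up to a
  root of unity.

**The question.** Let `x` be a point of the moduli space over a number field, and let `A_x` be
isogenous to `B ^ (r + 1) × C`, where `C` is an **arbitrary** abelian variety, which may be zero. Let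
`γ` be a Frobenius element at **one** place of good reduction, the residue field having `q` elements,
such that

* the characteristic polynomial of `γ` on the Tate module `V = V_ℓ (B)` is the product of the minimal
  polynomials of the `π i` (`IsPolarised`; together with the Weil pairing and the semisimplicity theorem
  of Faltings),

* the eigenvalues of `γ` on the multilinear forms on `W = V_ℓ (C)` are unrelated to the fields `K i`
  (`FormsUnrelated`, `UnrelatedTo`): a function `n` on the complex embeddings of `K i` with `n (conj
  φ) = - n φ` which is invariant under all automorphisms of `ℂ` that fix a power of such an eigenvalue
  is zero. This is so if for each embedding `ψ` of `K i` some automorphism which fixes a power of all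
  eigenvalues on `W` is the complex conjugation on `ψ (K i)`: for instance, if powers of these
  eigenvalues lie in a field linearly disjoint from the normal closures of the `K i`. It is no
  condition if `C = 0`.

Let `y` run through varieties through `x` over which the abelian variety is isogenous to a product
`B_y ^ (r + 1) × C_y` (if `C = 0` and `r = 0` these are **all** varieties through `x`). Then `V` and
`W` are representations of the arithmetic fundamental group `G y` of `y`, and there is a
homomorphism `i y` from the Galois group `D y` of the residue field of `x` to `G y`. A Tate form of
degree `m` at `x` (on `y`) is a form in `2 m` variables on `V ^ (r + 1) × W` that is multiplied by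
the `m`-th power of the cyclotomic character `χ` by a subgroup of finite index of `D y` (of `G y`).
By definition (`IsGaloisSpecial`, helper50, as in `MP_09799c_ag.DegreeFourDecides`) `x` is
`ℓ`-Galois special with respect to these `y` if for no `y` all Tate forms at `x` are Tate forms on
`y` (`SameGroup`); as the algebraic monodromy groups are reductive this means that the groups of `x`
and `y` are different.

**The theorem** (`ReducesTo`, helper29, as in `MP_09799c_ag.TypicalFields`): `x` is `ℓ`-Galois special
if and only if, for each `y`, some endomorphism of `B` does not extend to `B_y` or the algebraic
monodromy groups of `C` at `x` and of `C_y` are different. The condition for `B` (`FormsExtend`) is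
formulated with bilinear forms instead of endomorphisms.

If `C = 0` and `r = 0`, this answers Q1 for the point `x`: the endomorphisms extend on the Shimura
subvariety of PEL type through `x`, so that `x` is `ℓ`-Galois special if and only if this variety is
a point, that is, if `x` is a CM point. In general take for `y` the products of the variety of PEL
type of `B` with the point of `C`: so if `x` is `ℓ`-Galois special then `B` is CM, and then also the
point of `C` is `ℓ`-Galois special. Hence **Q1 for `x` follows from Q1 for `C`** (these arguments
are not formalized).

For example, the polynomial of `γ` on `V` can be a product of irreducible polynomials of degrees
`2 g i`, `g i` different odd prime numbers, such that the fields `K i` contain no imaginary quadratic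
fields, and of polynomials of degree two of ordinary elliptic curves with different CM fields. In
contrast to `MP_09799c_ag.TypicalFields` the fields need not be pairwise independent (some automorphism
is the identity on one of them and the complex conjugation on the other), the slopes are arbitrary, and
there are no exceptional types; and in contrast to `MP_09799c_ag.ArbitraryCofactor` the endomorphism
algebra of `B` is arbitrary.

**The proof.** The only multiplicative relations between the conjugates of the `π i` and `q` are the
trivial ones `π * conj π = q`, up to roots of unity: the angle rank is maximal
(`Pool.Agent.Q43.HQ.maximalAngleRank`, helper43). Let `L` be the Galois closure of all `K i`, `c` the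
complex conjugation, and let `T i` be the equivariant map from the embeddings `φ` of `K i` to the
representation `ℚ ⊗ L^×` of the Galois group which takes `φ` to the class of `φ(π i)^2 / q`. A relation
is `∑ v i φ T i φ = 0` with odd functions `v i`. If the Galois group does not act on `v i` by signs then
for each element `κ` of the Galois group which acts nontrivially on `K i` there is a translate `v'` of
`v i` such that it does not act by signs on `v' - v' ∘ κ`. So all `k` for which `K i` is not in the
Galois closure of `K k` are removed from the relation one after another; those whose Galois closure is
strictly larger are removed by averaging. There remains a relation to which the other fields contribute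
elements on which the group acts by signs; the commutators and the elements of odd order fix them, and
one finds that the Galois group acts on all `φ(π i)^2 / q` by signs, so that the degree of `K i` is two.
Hence `v i = 0`, or `v i` comes from an imaginary quadratic subfield of `K i`, and then the norm of
`π i` to this field satisfies a relation.

Then the Tate classes in `H ^ j (B ^ n) ⊗ M`, for a representation `M` of the Galois group whose
Frobenius eigenvalues are unrelated, are combinations of products of Tate classes of degree two on
`B ^ n` and Tate vectors in `M` (starting files, `split_of_angle`). This is applied to the spaces `M` of
multilinear forms on `W` (`Pool.Agent.Q29.GS.reducesTo`, helper29): if the Tate classes of degree two of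
`B` and the Tate vectors of `M` at `x` are also Tate classes over `y` then so are the combinations of
their products.
-/

set_option autoImplicit false

namespace Pool.Agent.Results.MP_09799c_ag.SeparatedByClosures

open NumberField Module IntermediateField Pool.Agent.Q43.HQ Pool.Agent.Y1.TS Pool.Agent.Q29.GS

/-- **A point with the isogeny factors `B` and `C` is `ℓ`-Galois special if and only if on no variety
through it the endomorphisms of `B` extend and the algebraic monodromy group of `C` is the one at the
point, for all `B` with one Frobenius element whose Weil numbers are separated by the Galois closures
of their fields and all unrelated `C`.** -/
theorem result (p : ℕ) [Fact p.Prime] (a : ℕ) (ha : 0 < a) (I : Type) [Fintype I] (K : I → Type)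
    [∀ i, Field (K i)] [∀ i, NumberField (K i)] [∀ i, IsCMField (K i)] (π : ∀ i, K i)
    (hw : ∀ i, π i * IsCMField.complexConj (K i) (π i) = (p : K i) ^ a)
    (hs : IsSeparated (p ^ a) K π) : ReducesTo (p := p) a K π :=
  reducesTo (split_of_angle
    (fun i => by
      have h1 := hs.generated i 1 one_pos
      rwa [pow_one] at h1) hw
    (maximalAngleRank (Nat.one_lt_pow ha.ne' (Fact.out : p.Prime).one_lt)
      (fun i => by rw [hw i, Nat.cast_pow]) hs))

end Pool.Agent.Results.MP_09799c_ag.SeparatedByClosures
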