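import Mathlib
import Pool.Agent.Q29.TE.Law3
import Pool.Agent.Q29.BX.Rows
import Pool.Agent.Y1.TS.Main
import Pool.Agent.Q29.GS.Final

/-!
# ℓ-Galois special points and abelian varieties with one Frobenius element of almost all slope types
of typical CM fields

Let `K i` (`i` in a finite set) be CM fields of degree `2 g i` which are pairwise independent: for
`i ≠ k` and all complex embeddings `φ` of `K i` and `ψ` of `K k` some automorphism of `ℂ` is the
identity on `φ (K i)` and the complex conjugation on `ψ (K k)` (this is no condition if there is
only one field).

We fix an isomorphism `ν` of the algebraic closure of `ℚ_p` with `ℂ`; it defines a `p`-adic
valuation of `ℂ`, with the value one at `p`. Let `M i` be a function with integral values on the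
complex embeddings of `K i`, invariant under complex conjugation (the weights). A CM type `Φ i` of
`K i` (a choice of one element out of each complex conjugate pair of embeddings), `M i` and a real
number `κ ≠ 0` prescribe the slopes `(a + κ M) / 2` (at the embeddings in `Φ i`) and `(a - κ M) / 2`
(outside of `Φ i`) of a Weil number for `p ^ a` in `K i`. If `p` splits completely in `K i` then, by
Honda and Tate, all rational slopes between `0` and `a` that are symmetric in this way occur for
abelian varieties over finite fields. The case `M = 1`, `κ = a` is the ordinary case.

**The question.** Let `x` be a point of the moduli space over a number field, and let `A_x` be
isogenous to `B ^ (r + 1) × C`, where `C` is an **arbitrary** abelian variety, which may be zero.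
Let `γ` be a Frobenius element at **one** place of good reduction, the residue field having `p ^ a`
elements, such that

* the characteristic polynomial of `γ` on the Tate module `V = V_ℓ (B)` is the product of the
  minimal polynomials of Weil numbers `π i` which generate the fields `K i` and have the slope types
  `Φ i`, `M i` (`IsPolarised`; together with the Weil pairing and the semisimplicity theorem of
  Faltings),

* the products of the eigenvalues of `γ` on `W = V_ℓ (C)` are unrelated to the fields `K i`
  (`FormsUnrelated`, `UnrelatedTo`): a function `n` on the complex embeddings of `K i` with `n (conj
  φ) = - n φ` which is invariant under all automorphisms of `ℂ` that fix a power of such a product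
  is zero. This is so if for each embedding `ψ` of `K i` some automorphism which fixes a power of
  all eigenvalues is the complex conjugation on `ψ (K i)`: for instance, if powers of the
  eigenvalues lie in a field linearly disjoint from the normal closures of the `K i`. It is no
  condition if `C = 0`.

Let `y` run through varieties through `x` over which the abelian variety is isogenous to a product
`B_y ^ (r + 1) × C_y` (if `C = 0` and `r = 0` these are **all** varieties through `x`). Then `V` and
`W` are representations of the arithmetic fundamental group `G y` of `y`, and there is a
homomorphism `i y` from the Galois group `D y` of the residue field of `x` to `G y`. A Tate form of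
degree `m` at `x` (on `y`) is a form in `2 m` variables on `V ^ (r + 1) × W` that is multiplied by
the `m`-th power of the cyclotomic character `χ` by a subgroup of finite index of `D y` (of `G y`).
By definition (`IsGaloisSpecial`, helper50, as in `MP_09799c_ag.DegreeFourDecides`) `x` is
`ℓ`-Galois special with respect to these `y` if for no `y` all Tate forms at `x` are Tate forms on
`y` (`SameGroup`); as the algebraic monodromy groups are reductive this means that the groups of `x`
and `y` are different.

The property `Q` of the slope types is (`ReducesTo`): **`x` is `ℓ`-Galois special if and only if,
for each `y`, some endomorphism of `B` does not extend to `B_y` or the algebraic monodromy groups of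
`C` at `x` and of `C_y` are different.** The condition for `B` (`FormsExtend`) is formulated with
bilinear forms instead of endomorphisms.

If `C = 0` and `r = 0`, this answers Q1 for the point `x`: the endomorphisms extend on the Shimura
subvariety of PEL type through `x`, so that `x` is `ℓ`-Galois special if and only if this variety is
a point, that is, if `x` is a CM point. In general take for `y` the products of the variety of PEL
type of `B` with the point of `C`: so if `x` is `ℓ`-Galois special then `B` is CM, and then also the
point of `C` is `ℓ`-Galois special. Hence **Q1 for `x` follows from Q1 for `C`** (these arguments
are not formalized).

The hand-in `MP_09799c_ag.ArbitraryCofactor` (helper43) proves a similar result if the Rosati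
involution of `B` is trivial and the Frobenius element has no relations of length four, or if `B` is
an elliptic curve. Here the endomorphism algebra of `B` is arbitrary, all relations are excluded by
the slope types, and the varieties `y` are arbitrary.

**The theorem.** Let `E` be a CM field of degree `2 g`, and let all values of the weights `M` divide
the number `n`.

* (`MostTypes`) For all `n` and `ε > 0` there is a number `u` such that the property `Q` is false
  for at most **a proportion of `max (ε, 0.68 q / g)` of the `2 ^ g` types** of `E`, if `g ≥ u`, the
  normal subfields of `E` are small (`SmallNormal`: `g` is odd, or all smooth parts of `g` are
  small, that is, a divisor of `g` with all prime factors at most `y` is at most `√(g y ^ 3) / (1 +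
  log g) ^ 3`, for all `y ≥ 2`, for instance if `g` is large and has a prime factor larger than `√g
  (1 + log g) ^ 3`, but also if `g = 4 p ^ 2` with a large prime number `p`; or the subfields of `E`
  that are normal over `ℚ` are contained in a subfield of degree at most `√g / (1 + log g) ^ 2`),
  and `q ≤ g` is at least the part of `g` composed of the primes 2 and 3 (or at least twice the
  number of the CM subfields of `E` of degree 4 or 6; `SmallPart`). In particular the property is
  true for almost all types of **all CM fields of degree `2 g` with `g` odd and prime to `3`**,
  without any condition on the Galois group or on the subfields; for at least 86 percent of all
  types if `g` is odd and not a power of 3; and for at least 32 percent of all types of all fields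
  with small normal subfields (take `q = g`).
* (`OddDegrees`) For **all CM fields of degree `2 g` with `g` odd**, `g ≥ u (n)`, without any
  condition on the Galois group or the subfields, it is true for **at least one half of all types**,
  and if all weights are one then for **at least two thirds of all types**.
* (`AllFields`) For **every CM field** `E`, of any degree `2 g`, without any condition on the Galois
  group or the subfields, and every `m`, the property is true for **all but a proportion of `g / (m
  + 1)` of all slope functions with denominator `m`**: they are `a (1 + D / m) / 2` with one of the
  `(m + 1) ^ g` functions `D` with `D φ̄ = - D φ`, `|D φ| ≤ m` and `D φ` congruent to `m` modulo 2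
  (`Box`); the weights are `M = |D|`, and `D ≥ 0` on the type.
* (`AlmostAllTypes`, `AlmostAllDegrees`) Let `q ^ k ≤ g` for all `q` with `q ^ 2 ∣ g`. Then for all
  CM fields of degree `2 g` it is false for at most `2 ^ g * C * n ^ 2 * g ^ (6 / k - 1/4 + ε)`
  types, `C = C (k, ε)`. At most `4 x ^ (1 - 1/k)` of the numbers `g ≤ x` do not have this property
  (`k ≥ 2`).

All this is proved more generally for finitely many pairwise independent fields `K i`; the
proportions of the types with the property are then multiplied (in the third
and the fourth part the bounds for the exceptions are added).

**What was known.** The starting files prove that almost all types of a CM field have no relations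
if it has few CM subfields, and this for all CM fields of degree `2 g` if `g` has a prime factor
larger than `g ^ (1 / 2 + δ)`. For the fields with many CM subfields of the other degrees (examples
are `g = p q` with two nearly equal prime numbers, and `g = p ^ k`) this was open; for the degrees
`2 r ^ k`, `r` prime, a theorem of this team gives the property for at least one half of all types,
by congruences (it is used here for `r = 3`). Some condition is necessary: if `E` is multiquadratic
and `M = 1` then nearly one half of all types is degenerate (`Pool.Agent.Q29.DP.multiquadratic`).

**The proof.** A multiplicative relation between the conjugates of the `π i` and a number `α` gives,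
by the `p`-adic valuations, a linear relation between the signed weights. If there are no
homogeneous relations then the exponents are invariant under all automorphisms which fix a power of
`α`, so that they are zero if `α` is unrelated (starting files). It follows that the Tate classes in
`H ^ j (B ^ n) ⊗ M`, for a representation `M` of the Galois group whose Frobenius eigenvalues are
unrelated, are combinations of products of Tate classes of degree two on `B ^ n` and Tate vectors in
`M` (starting files, `TateClassesSplit`). This is applied to the spaces `M` of multilinear forms on
`W`: the components of a multilinear form on `V ^ (r + 1) × W` are multilinear maps from `V` to `M`,
which are determined by alternating maps on powers of `V` (`altOf`). If the Tate classes of degree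
two of `B` and the Tate vectors of `M` at `x` are also Tate classes over `y` then so are the
combinations of their products.

**The proof** that there are no homogeneous relations between the signed weights `e = ± M` of the
types, `∑ n φ * e (σ φ) = 0` for all automorphisms `σ` of `ℂ`, with `n φ̄ = - n φ`, `n ≠ 0`: it
remains to estimate the number of the degenerate types: those for which `e` is orthogonal to a
minimal Galois-stable space `S` of antisymmetric functions on the set of the complex embeddings of
`E`. Let `G` be the Galois group of the normal closure and `H` the stabilizer of an embedding, `K`
the kernel of the action of `G` on `S` and `F` the field of `H K`; so `S` comes from `F` and is a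
faithful representation of the Galois group `G / K` of the normal closure of `F`. Let `c = e + d -
h` where `d` and `h` are the dimensions of `S` and of the part of `S` fixed by `H`, and `e` is the
dimension of the algebra of the endomorphisms of `S`. The spaces isomorphic to `S` form a component.

(A) The sum of `h d / e` over all components is at most `g`. A component with `c ≥ 3` contributes at
most `2 ^ g C n ^ 4 (h d / (e g)) (log g) ^ 21 / √g`; so these components together contribute
little. For this the size of `F` must be eliminated from the estimate of the starting files; this is
done with their inequality for small denominators and for groups of order `g ^ (log g)`.

(B) The components with `c = 2` and dimension `d ≥ 3`: those with `d ≥ D` contribute at most `2 ^ g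
64 log (4 D) / D` together. If `3 ≤ d < D` then by Minkowski `F` has bounded degree, and each
contributes `2 ^ g o (1 / g)`; this is the new analytic step. Let `p` be a prime number of the size
of a large multiple of `√g`. The spaces isomorphic to `S` have at most `2 ^ e p ^ (h - e)`
reductions `R` modulo `p`, and by Fourier analysis modulo `p` the number of the types orthogonal to
`R` is at most `2 ^ g p ^ (-d)` times the sum over the functions `u` in `R` of a product of cosines,
which is at most a Gaussian function of `u`. A short `u ≠ 0` generates `R` (short integral functions
which are independent over `ℚ` are independent modulo `p`, by Gram determinants); so the sum over
all `R` of the sums over the `u ≠ 0` is at most one Gaussian sum, hence bounded, and altogether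
there are at most `2 ^ g (2 ^ e p ^ (-2) + O (p ^ (-d)))` types.

(C) `c = d = 2`: then `F` has degree 4 or 6, there are at most as many of these components as CM
subfields of degree 4 or 6, and at most half of the part of `g` composed of 2 and 3; each
contributes at most `2 ^ g 1.351 / g`, by the theorem of Erdos on sums of weights with signs,
applied twice. If `g` is a power of 3, and for `OddDegrees`, these components are excluded by a
congruence modulo 3: the lattice of the relations contains a function that is invariant modulo 3
under a Sylow 3-subgroup, which has two orbits on the embeddings.

(D) `c = 1`: then `F` is normal over `ℚ`, `d ^ 2 ≤ [F : ℚ] / 2`, and the component contributes at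
most `2 ^ g C n (log g) ^ (3/2) √(d / g)`. If `g` is odd then `d = 1` (Frobenius and Schur) and
there is at most one. In general the sum of `d ^ 2` over those with `d < y` is at most the largest
divisor of `g` composed of primes `≤ y`; and over all of them at most the degree of a field which
contains all subfields normal over `ℚ`.

(E) For the bounds with a power saving the number of the components with `c ≤ 2` is estimated by the
number of the classes of cyclic subgroups of `G / L`, `L` the intersection of their kernels, using
the theorem of Sylow; here the order of `G / L` is at most `2 g 2 ^ Ω(2 g)` because `H K / K` has
order at most two and is not central. Lemmas of this part were proved by helper24, helper38,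
helper178, helper204, helper227, helper261 and helper275 of this team.

(G) For (`AllFields`) let `φ i` be the embeddings of a type. The functions `D` with relations are
zeros of the polynomial `det (D (σ j φ i))` of degree `g` in the `g` variables `D (φ i)`, for all
automorphisms `σ j` of `ℂ`; if `σ j` maps `φ j` to `φ 1` then it is not zero, since its value for
the function with the values `1` at `φ 1`, `-1` at its conjugate and `0` elsewhere is the
determinant of the unit matrix. Then the lemma of Schwartz and Zippel gives the bound.
-/

set_option autoImplicit false

namespace Pool.Agent.Results.MP_09799c_ag.TypicalFields

open NumberField Module IntermediateField Pool.Agent.H204R3.CM Pool.Agent.H977R3.CM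
  Pool.Agent.TH170 Pool.Agent.TH170.FW Pool.Agent.Y1.KN Pool.Agent.Y1.CT Pool.Agent.Y1.TS
  Pool.Agent.Y137.MV Pool.Agent.Q29.TE Pool.Agent.Q29.GS

open Pool.Agent.Q29.DP (notMem_degTypes_of_noRelations)

open Pool.Agent.Q29.BX (AllFields allFields)

/-- The property of the slope types `Φ i` with the weights `M i`. -/
def Q : TypeProperty := fun p _ ν _ _ K _ _ _ M Φ =>
  ForAllWeil ν K M (fun a π => ReducesTo (p := p) a K π) Φ

/-- **A point with the isogeny factors `B` and `C` is `ℓ`-Galois special if and only if on no variety
through it the endomorphisms of `B` extend and the algebraic monodromy group of `C` is the one at the
point, for all `B` with a Frobenius element of almost all slope types of typical CM fields and all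
unrelated `C`.** -/
theorem result : MostTypes Q ∧ OddDegrees Q ∧ AllFields Q ∧ AlmostAllTypes Q ∧
    AlmostAllDegrees := by
  have h : WithoutRelations Q := by
    intro p _ ν I _ K _ _ _ M Φ hind hMc hΦ hno
    have hnd : ∀ i, Φ i ∉ degTypes (M i) := fun i => notMem_degTypes_of_noRelations (hno i)
    intro a π ha hπ
    exact reducesTo (split_of_angle (fun i => (hπ i).gen) (fun i => (hπ i).weil)
      (angle_types hind hMc hΦ hnd hπ))
  exact ⟨mostTypes h, oddDegrees h, allFields h, almostAllTypes h, almostAllDegrees⟩

end Pool.Agent.Results.MP_09799c_ag.TypicalFields
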